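import Pool.Agent.Helper17.CR.Stmts

/-!
Lifting of elements of prime order along a quotient by a normal `p`-subgroup.
-/

set_option autoImplicit false

namespace Pool.Agent.Helper82.CR

open Pool.Agent.Helper17.CR

universe u

/-- an element of order prime to `p` lifts to an element of the same order -/
theorem lift_one {G : Type u} [Group G] [Finite G] (p : ℕ) (F : Subgroup G) [F.Normal]
    (hF : IsPGroup p F) (x : G ⧸ F) (hx : Nat.Coprime p (orderOf x)) :
    ∃ g : G, orderOf g = orderOf x ∧ (g : G ⧸ F) = x := by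
  obtain ⟨g0, hg0⟩ := QuotientGroup.mk_surjective x
  have hm : g0 ^ orderOf x ∈ F := by
    rw [← QuotientGroup.eq_one_iff, QuotientGroup.mk_pow, hg0, pow_orderOf_eq_one]
  obtain ⟨i, hi⟩ := hF ⟨g0 ^ orderOf x, hm⟩
  have hi' : (g0 ^ orderOf x) ^ (p ^ i) = 1 := by
    have := congrArg Subtype.val hi
    simpa using this
  obtain ⟨t, ht⟩ := exists_pow_eq_self_of_coprime (Nat.Coprime.pow_left i hx)
  have hq : (((g0 ^ (p ^ i)) ^ t : G) : G ⧸ F) = x := by
    rw [QuotientGroup.mk_pow, QuotientGroup.mk_pow, hg0, ht]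
  refine ⟨(g0 ^ (p ^ i)) ^ t, ?_, hq⟩
  apply Nat.dvd_antisymm
  · apply orderOf_dvd_of_pow_eq_one
    rw [← pow_mul, mul_comm t (orderOf x), pow_mul, ← pow_mul g0, mul_comm (p ^ i) (orderOf x),
      pow_mul, hi', one_pow]
  · have h2 := orderOf_map_dvd (QuotientGroup.mk' F) ((g0 ^ (p ^ i)) ^ t)
    rw [QuotientGroup.mk'_apply, hq] at h2
    exact h2

/-- powers of an element of order `l l'` -/
theorem lift_pow {G : Type u} [Group G] (z : G) (l l' : ℕ) (hl : 0 < l) (hl' : 0 < l')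
    (hz : orderOf z = l * l') : orderOf (z ^ l') = l ∧ orderOf (z ^ l) = l' := by
  constructor
  · rw [orderOf_pow_of_dvd hl'.ne' (by rw [hz]; exact dvd_mul_left _ _), hz,
      Nat.mul_div_cancel _ hl']
  · rw [orderOf_pow_of_dvd hl.ne' (by rw [hz]; exact dvd_mul_right _ _), hz,
      Nat.mul_div_cancel_left _ hl]

theorem st_LIFT : ST_LIFT.{u} := by
  intro G _ _ p F _ hp hF
  refine ⟨fun x hx hxp => lift_one p F hF x ((Nat.coprime_primes hp hx).2 (Ne.symm hxp)), ?_⟩
  intro x y hx hxp hy hyp hxy hcomm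
  have hc : Commute x y := hcomm
  have ho : orderOf (x * y) = orderOf x * orderOf y :=
    hc.orderOf_mul_eq_mul_orderOf_of_coprime ((Nat.coprime_primes hx hy).2 hxy)
  obtain ⟨w, hw, -⟩ := lift_one p F hF (x * y) (by
    rw [ho]
    exact Nat.Coprime.mul_right ((Nat.coprime_primes hp hx).2 (Ne.symm hxp))
      ((Nat.coprime_primes hp hy).2 (Ne.symm hyp)))
  rw [ho] at hw
  obtain ⟨h1, h2⟩ := lift_pow w (orderOf x) (orderOf y) hx.pos hy.pos hw
  exact ⟨w ^ orderOf y, w ^ orderOf x, h1, h2, (Commute.refl w).pow_pow _ _⟩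

end Pool.Agent.Helper82.CR
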