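import Pool.Agent.Helper17.CR.Stmts

/-!
The order of a linear map of a finite vector space is at most the number of vectors.
-/

set_option autoImplicit false

namespace Pool.Agent.Helper82.CR

open Pool.Agent.Helper17.CR

universe u

open Polynomial in
theorem st_LIN : ST_LIN.{u} := by
  intro p _ V _ _ _ f hf
  classical
  have hmon : (LinearMap.charpoly f).Monic := LinearMap.charpoly_monic f
  have hdeg : (LinearMap.charpoly f).natDegree = Module.finrank (ZMod p) V :=
    LinearMap.charpoly_natDegree f
  have hcard : Nat.card V = p ^ Module.finrank (ZMod p) V := by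
    rw [Module.natCard_eq_pow_finrank (K := ZMod p) (V := V), Nat.card_zmod]
  have key : ∀ k : ℕ, aeval f ((X : (ZMod p)[X]) ^ k %ₘ LinearMap.charpoly f) = f ^ k := by
    intro k
    have h := modByMonic_add_div ((X : (ZMod p)[X]) ^ k) (LinearMap.charpoly f)
    have h2 := congrArg (aeval f) h
    rw [map_add, map_mul, LinearMap.aeval_self_charpoly, zero_mul, add_zero, map_pow, aeval_X] at h2
    exact h2
  let c : Fin (orderOf f) → (Fin (Module.finrank (ZMod p) V) → ZMod p) :=
    fun k i => ((X : (ZMod p)[X]) ^ (k : ℕ) %ₘ LinearMap.charpoly f).coeff i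
  have hinj : Function.Injective c := by
    intro k k' hkk
    have hpol : (X : (ZMod p)[X]) ^ (k : ℕ) %ₘ LinearMap.charpoly f =
        (X : (ZMod p)[X]) ^ (k' : ℕ) %ₘ LinearMap.charpoly f := by
      ext i
      by_cases hi : i < Module.finrank (ZMod p) V
      · exact congrFun hkk ⟨i, hi⟩
      · have hz : ∀ q : (ZMod p)[X], (q %ₘ LinearMap.charpoly f).coeff i = 0 := by
          intro q
          apply coeff_eq_zero_of_degree_lt
          refine lt_of_lt_of_le (degree_modByMonic_lt q hmon) ?_
          rw [degree_eq_natDegree hmon.ne_zero, hdeg]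
          exact_mod_cast not_lt.1 hi
        rw [hz, hz]
    have hpow : f ^ (k : ℕ) = f ^ (k' : ℕ) := by rw [← key, ← key, hpol]
    exact Fin.ext (pow_injOn_Iio_orderOf k.2 k'.2 hpow)
  have h1 := Fintype.card_le_of_injective c hinj
  rw [Fintype.card_fin, Fintype.card_fun, ZMod.card, Fintype.card_fin] at h1
  rw [hcard]
  exact h1

end Pool.Agent.Helper82.CR
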