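import Pool.Agent.Helper17.CR.Stmts

/-!
Commuting elements of orders `l` and `l'` when the quotient by `A` is abelian.
-/

set_option autoImplicit false

namespace Pool.Agent.Helper82.CR

open Pool.Agent.Helper17.CR

universe u

theorem ord_pow {G : Type u} [Group G] [Finite G] (z : G) (l : ℕ) (hl : l ∣ orderOf z) :
    orderOf (z ^ (orderOf z / l)) = l :=
  orderOf_pow_orderOf_div (orderOf_pos z).ne' hl

theorem st_ORD : ST_ORD.{u} := by
  intro G _ _ A hA hcomm l l' hl hl' hne hlA hl'A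
  have := Fact.mk hl
  have := Fact.mk hl'
  have hcard : Nat.card (G ⧸ A) = A.index := rfl
  obtain ⟨x, hx⟩ := exists_prime_orderOf_dvd_card' (G := G ⧸ A) l (by rw [hcard]; exact hlA)
  obtain ⟨y, hy⟩ := exists_prime_orderOf_dvd_card' (G := G ⧸ A) l' (by rw [hcard]; exact hl'A)
  have hc : Commute x y := by
    obtain ⟨x0, rfl⟩ := QuotientGroup.mk_surjective x
    obtain ⟨y0, rfl⟩ := QuotientGroup.mk_surjective y
    have h := (QuotientGroup.eq_one_iff (N := A) (x0 * y0 * x0⁻¹ * y0⁻¹)).2 (hcomm x0 y0)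
    rw [QuotientGroup.mk_mul, QuotientGroup.mk_mul, QuotientGroup.mk_mul, QuotientGroup.mk_inv,
      QuotientGroup.mk_inv] at h
    rw [commute_iff_eq]
    rw [mul_inv_eq_one, mul_inv_eq_iff_eq_mul] at h
    exact h
  have ho : orderOf (x * y) = l * l' := by
    rw [hc.orderOf_mul_eq_mul_orderOf_of_coprime (by
      rw [hx, hy]; exact (Nat.coprime_primes hl hl').2 hne), hx, hy]
  obtain ⟨z, hz⟩ := QuotientGroup.mk_surjective (x * y)
  have hdvd : l * l' ∣ orderOf z := by
    have h2 := orderOf_map_dvd (QuotientGroup.mk' A) z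
    rw [QuotientGroup.mk'_apply, hz, ho] at h2
    exact h2
  exact ⟨z ^ (orderOf z / l), z ^ (orderOf z / l'),
    ord_pow z l ((dvd_mul_right l l').trans hdvd), ord_pow z l' ((dvd_mul_left l' l).trans hdvd),
    (Commute.refl z).pow_pow _ _⟩

end Pool.Agent.Helper82.CR
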